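import Pool.Agent.Q283.HI.Lower

/-!
# MP_913bbb_co, Q1: the independence number of highly irregular trees

Every highly irregular tree of order `n ≥ 2` satisfies `127 α(T) + 22 ≤ 79 n`.  For `n = 26` this is
attained with equality, and for every `n = 100 + 254 k` it is attained after rounding down; so
`c* = 79/127`.
-/

open Finset

namespace Pool.Agent.Results.MP_913bbb_co.BestConstant

/-- distinct neighbours of a vertex have different degrees (the degree being the number of
neighbours) -/
def HighlyIrregular {V : Type} (G : SimpleGraph V) : Prop :=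
  ∀ v a b, G.Adj v a → G.Adj v b → a ≠ b → (G.neighborSet a).ncard ≠ (G.neighborSet b).ncard

open Pool.Agent.Q283.HI in
lemma deg_eq {V : Type} [Fintype V] (G : SimpleGraph V) (v : V) :
    deg G v = (G.neighborSet v).ncard := by
  classical
  unfold deg
  rw [← Set.ncard_coe_finset]
  congr 1
  ext x
  simp

open Pool.Agent.Q283.HI in
lemma hi_iff {V : Type} [Fintype V] (G : SimpleGraph V) :
    Pool.Agent.Q283.HI.HighlyIrregular G ↔ HighlyIrregular G := by
  unfold Pool.Agent.Q283.HI.HighlyIrregular HighlyIrregular
  simp only [deg_eq]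

open Pool.Agent.Q283.HI

lemma Half.cast {d : ℕ} {s : Bool} {C C' : Finset ℕ} {n n' a a' : ℕ} (h : Half d s C n a)
    (h1 : C = C') (h2 : n = n') (h3 : a = a') : Half d s C' n' a' := by
  subst h1 h2 h3
  exact h

lemma s0 (d : ℕ) : Half d false ∅ 1 0 := half_single d false

lemma s1 (d : ℕ) : Half d true ∅ 1 1 := half_single d true

lemma leaf : Half 1 true ∅ 1 1 := s1 1

lemma O2c : Half 2 false {1} 2 1 := by
  exact Half.cast
    ((s0 2).attach leaf rfl (by decide) (by decide) rfl)
    (by decide) rfl rfl

lemma I2c : Half 2 true {2} 3 2 := by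
  exact Half.cast
    ((s1 2).attach O2c rfl (by decide) (by decide) rfl)
    (by decide) rfl rfl

lemma O3 : Half 3 false {1, 2} 5 3 := by
  exact Half.cast
    (((s0 3).attach leaf rfl (by decide) (by decide) rfl).attach I2c rfl (by decide) (by decide) rfl)
    (by decide) rfl rfl

lemma I3a : Half 3 true {2, 3} 8 5 := by
  exact Half.cast
    (((s1 3).attach O2c rfl (by decide) (by decide) rfl).attach O3 rfl (by decide) (by decide) rfl)
    (by decide) rfl rfl

lemma O4base : Half 4 false {1, 2, 3} 13 8 := by
  exact Half.cast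
    ((((s0 4).attach leaf rfl (by decide) (by decide) rfl).attach I2c rfl (by decide) (by decide) rfl).attach I3a rfl (by decide) (by decide) rfl)
    (by decide) rfl rfl

lemma O44 : Half 4 false {1, 2, 4} 18 11 := by
  exact Half.cast
    ((((s0 4).attach leaf rfl (by decide) (by decide) rfl).attach I2c rfl (by decide) (by decide) rfl).attach O4base rfl (by decide) (by decide) rfl)
    (by decide) rfl rfl

lemma I3b : Half 3 true {3, 4} 24 15 := by
  exact Half.cast
    (((s1 3).attach O3 rfl (by decide) (by decide) rfl).attach O44 rfl (by decide) (by decide) rfl)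
    (by decide) rfl rfl

lemma I4a : Half 4 true {2, 3, 4} 21 13 := by
  exact Half.cast
    ((((s1 4).attach O2c rfl (by decide) (by decide) rfl).attach O3 rfl (by decide) (by decide) rfl).attach O4base rfl (by decide) (by decide) rfl)
    (by decide) rfl rfl

lemma O5base : Half 5 false {1, 2, 3, 4} 50 31 := by
  exact Half.cast
    (((((s0 5).attach leaf rfl (by decide) (by decide) rfl).attach I2c rfl (by decide) (by decide) rfl).attach I3b rfl (by decide) (by decide) rfl).attach I4a rfl (by decide) (by decide) rfl)
    (by decide) rfl rfl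

lemma O55 : Half 5 false {1, 2, 3, 5} 79 49 := by
  exact Half.cast
    (((((s0 5).attach leaf rfl (by decide) (by decide) rfl).attach I2c rfl (by decide) (by decide) rfl).attach I3b rfl (by decide) (by decide) rfl).attach O5base rfl (by decide) (by decide) rfl)
    (by decide) rfl rfl

lemma I4b : Half 4 true {3, 4, 5} 98 61 := by
  exact Half.cast
    ((((s1 4).attach O3 rfl (by decide) (by decide) rfl).attach O4base rfl (by decide) (by decide) rfl).attach O55 rfl (by decide) (by decide) rfl)
    (by decide) rfl rfl

lemma O6a : Half 6 false {1, 2, 3, 4, 5} 177 110 := by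
  exact Half.cast
    ((((((s0 6).attach leaf rfl (by decide) (by decide) rfl).attach I2c rfl (by decide) (by decide) rfl).attach I3b rfl (by decide) (by decide) rfl).attach I4b rfl (by decide) (by decide) rfl).attach O5base rfl (by decide) (by decide) rfl)
    (by decide) rfl rfl

lemma O5 (k : ℕ) : Half 5 false {1, 2, 3, 4} (50 + 254 * k) (31 + 158 * k) := by
  induction k with
  | zero => exact O5base
  | succ k ih =>
    have O6k : Half 6 false {1, 2, 3, 5, 6} (256 + 254 * k) (159 + 158 * k) := Half.cast
      ((((((s0 6).attach leaf rfl (by decide) (by decide) rfl).attach I2c rfl (by decide) (by decide) rfl).attach I3b rfl (by decide) (by decide) rfl).attach ih rfl (by decide) (by decide) rfl).attach O6a rfl (by decide) (by decide) rfl)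
      (by decide) (by ring) (by ring)
    have I4k : Half 4 true {3, 4, 6} (275 + 254 * k) (171 + 158 * k) := Half.cast
      ((((s1 4).attach O3 rfl (by decide) (by decide) rfl).attach O4base rfl (by decide) (by decide) rfl).attach O6k rfl (by decide) (by decide) rfl)
      (by decide) (by ring) (by ring)
    exact Half.cast
      (((((s0 5).attach leaf rfl (by decide) (by decide) rfl).attach I2c rfl (by decide) (by decide) rfl).attach I3b rfl (by decide) (by decide) rfl).attach I4k rfl (by decide) (by decide) rfl)
      (by decide) (by ring) (by ring)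

lemma tree_k (k : ℕ) : Half 5 false {1, 2, 3, 4, 5} (100 + 254 * k) (62 + 158 * k) :=
  Half.cast ((O5 k).attach O5base rfl (by decide) (by decide) rfl) (by decide) (by ring) (by ring)

lemma tree_26 : Half 4 false {1, 2, 3, 4} 26 16 :=
  Half.cast (O4base.attach O4base rfl (by decide) (by decide) rfl) (by decide) (by ring) (by ring)

lemma upper' {V : Type} [Fintype V] (T : SimpleGraph V) (hT : T.IsTree)
    (hH : MP_913bbb_co.BestConstant.HighlyIrregular T) (h2 : 2 ≤ Fintype.card V) :
    127 * T.indepNum + 22 ≤ 79 * Fintype.card V := by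
  obtain ⟨I, hI⟩ := T.exists_isNIndepSet_indepNum
  rw [← hI.card_eq]
  refine upper hT ((hi_iff T).mpr hH) ?_ h2
  intro a ha b hb hab
  exact hI.isIndepSet (by simpa using ha) (by simpa using hb) hab.ne hab

/-- a closed tree whose independent set has the size of the upper bound -/
lemma exists_tree {d : ℕ} {s : Bool} {C : Finset ℕ} {n a : ℕ} (h : Half d s C n a)
    (hc : C.card = d) (hn : 2 ≤ n) (ha : 79 * n < 127 * (a + 1) + 22) :
    ∃ (V : Type) (_ : Fintype V) (T : SimpleGraph V), T.IsTree ∧
      MP_913bbb_co.BestConstant.HighlyIrregular T ∧ Fintype.card V = n ∧ T.indepNum = a := by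
  obtain ⟨V, _, G, I, hT, hH, hI, hVn, hIa⟩ := h.close hc
  refine ⟨V, inferInstance, G, hT, (hi_iff G).mp hH, hVn, ?_⟩
  have h1 := upper' G hT ((hi_iff G).mp hH) (by omega)
  have h2 : I.card ≤ G.indepNum := by
    apply SimpleGraph.IsIndepSet.card_le_indepNum
    intro x hx y hy _
    exact hI x (by simpa using hx) y (by simpa using hy)
  rw [hVn] at h1
  omega

/-- the ratios `α(T)/n` -/
def ratios : Set ℝ :=
  {x | ∃ (V : Type) (_ : Fintype V) (T : SimpleGraph V), T.IsTree ∧
    MP_913bbb_co.BestConstant.HighlyIrregular T ∧ 2 ≤ Fintype.card V ∧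
    x = (T.indepNum : ℝ) / Fintype.card V}

theorem result :
    (∀ (V : Type) [Fintype V] (T : SimpleGraph V), T.IsTree →
      MP_913bbb_co.BestConstant.HighlyIrregular T → 2 ≤ Fintype.card V →
      127 * T.indepNum + 22 ≤ 79 * Fintype.card V) ∧
    (∃ (V : Type) (_ : Fintype V) (T : SimpleGraph V), T.IsTree ∧
      MP_913bbb_co.BestConstant.HighlyIrregular T ∧ Fintype.card V = 26 ∧
      127 * T.indepNum + 22 = 79 * Fintype.card V) ∧
    (∀ k : ℕ, ∃ (V : Type) (_ : Fintype V) (T : SimpleGraph V), T.IsTree ∧
      MP_913bbb_co.BestConstant.HighlyIrregular T ∧ Fintype.card V = 100 + 254 * k ∧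
      T.indepNum = (79 * Fintype.card V - 22) / 127) ∧
    IsLUB ratios (79 / 127) := by
  have hk : ∀ k : ℕ, ∃ (V : Type) (_ : Fintype V) (T : SimpleGraph V), T.IsTree ∧
      MP_913bbb_co.BestConstant.HighlyIrregular T ∧ Fintype.card V = 100 + 254 * k ∧
      T.indepNum = 62 + 158 * k := fun k => exists_tree (tree_k k) (by decide) (by omega) (by omega)
  refine ⟨fun V _ T => upper' T, ?_, ?_, ?_⟩
  · obtain ⟨V, hV, T, h1, h2, h3, h4⟩ := exists_tree tree_26 (by decide) (by omega) (by omega)
    exact ⟨V, hV, T, h1, h2, h3, by rw [h3, h4]⟩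
  · intro k
    obtain ⟨V, hV, T, h1, h2, h3, h4⟩ := hk k
    refine ⟨V, hV, T, h1, h2, h3, ?_⟩
    rw [h3, h4]
    omega
  · constructor
    · rintro x ⟨V, _, T, hT, hH, h2, rfl⟩
      have h := upper' T hT hH h2
      have h3 : (0 : ℝ) < Fintype.card V := by
        have : 0 < Fintype.card V := by omega
        exact_mod_cast this
      rw [div_le_div_iff₀ h3 (by norm_num)]
      have : ((127 * T.indepNum + 22 : ℕ) : ℝ) ≤ ((79 * Fintype.card V : ℕ) : ℝ) := by
        exact_mod_cast h
      push_cast at this
      linarith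
    · intro u hu
      by_contra hlt
      push Not at hlt
      obtain ⟨k, hk'⟩ := exists_nat_gt (1 / (79 / 127 - u))
      have hpos : (0 : ℝ) < 79 / 127 - u := by linarith
      rw [div_lt_iff₀ hpos] at hk'
      obtain ⟨V, hV, T, h1, h2, h3, h4⟩ := hk k
      have h5 := hu ⟨V, hV, T, h1, h2, by omega, rfl⟩
      rw [h3, h4] at h5
      have h6 : (0 : ℝ) < ((100 + 254 * k : ℕ) : ℝ) := by positivity
      rw [div_le_iff₀ h6] at h5
      push_cast at h5
      nlinarith

end Pool.Agent.Results.MP_913bbb_co.BestConstant
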